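import Pool.Agent.Helper54.DT.StmtsS

namespace Pool.Agent.Helper5.DCT

open Pool.Agent.Helper54.DT
open Finset Pool.Agent.Helper54.ETR Pool.Agent.Helper54.Poly

theorem lf_seg (M : ℕ) (e P X : ℕ → ℝ) (t : ℝ) :
    lf M e (fun a => (1 - t) * P a + t * X a) = (1 - t) * lf M e P + t * lf M e X := by
  unfold lf
  rw [Finset.mul_sum, Finset.mul_sum, ← Finset.sum_add_distrib]
  exact Finset.sum_congr rfl fun m _ => by ring

theorem cub_seg_cont (M : ℕ) (S : ℕ → ℕ → ℕ → ℝ) (P X : ℕ → ℝ) :
    Continuous fun t : ℝ => cub M S (fun a => (1 - t) * P a + t * X a) := by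
  unfold cub
  refine continuous_finsetSum _ fun a _ => continuous_finsetSum _ fun b _ =>
    continuous_finsetSum _ fun c _ => ?_
  fun_prop

theorem st_HS (hHS1 : ST_HS1) : ST_HS := by
  intro M R E kd tg S md y L X ε hM hT htg hH
  obtain ⟨hP, hle⟩ := hHS1 M R E kd tg S md y L X ε hM hT htg hH
  cases md with
  | false =>
    obtain ⟨h1, h2⟩ := hH.m2 rfl
    refine ⟨X, ⟨hH.x0, hH.xz, fun r hr h => lt_of_lt_of_le hH.ep (hH.xp r hr h), hH.xw⟩, ?_, ?_⟩
    · have : cub M S X = cub M S (fun a => y a 0 0) := by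
        refine Finset.sum_congr rfl fun a ha => Finset.sum_congr rfl fun b hb =>
          Finset.sum_congr rfl fun c hc => ?_
        rw [h2 a (Finset.mem_range.mp ha), h2 b (Finset.mem_range.mp hb),
          h2 c (Finset.mem_range.mp hc)]
      rw [this]
      exact hle.trans h1
    · intro h
      exact absurd h (by decide)
  | true =>
    have h1 := hH.m1 rfl
    have h0 : cub M S (fun a => y a 0 0) < 0 := by
      have := hH.ep
      linarith
    have hc := cub_seg_cont M S (fun a => y a 0 0) X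
    have hev : ∀ᶠ t in nhds (0 : ℝ),
        cub M S (fun a => (1 - t) * y a 0 0 + t * X a) < 0 := by
      refine hc.continuousAt.eventually_lt_const ?_
      simpa using h0
    obtain ⟨t, ht1, ht2⟩ := ((hev.filter_mono nhdsWithin_le_nhds).and
      (Ioo_mem_nhdsGT (zero_lt_one' ℝ))).exists
    have ht2 : 0 < t ∧ t < 1 := ht2
    refine ⟨fun a => (1 - t) * y a 0 0 + t * X a, ⟨?_, ?_, ?_, ?_⟩, ht1.le, fun _ => ht1⟩
    · have h : y 0 0 0 = 1 := hP.one
      show (1 - t) * y 0 0 0 + t * X 0 = 1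
      rw [h, hH.x0]
      ring
    · intro r hr hk
      rw [lf_seg M (E r) (fun a => y a 0 0) X t, hP.eqz r hr hk, hH.xz r hr hk]
      ring
    · intro r hr hk
      rw [lf_seg M (E r) (fun a => y a 0 0) X t]
      have e1 := hP.weak r hr (by omega)
      have e2 := hH.xp r hr hk
      have e3 := hH.ep
      have := mul_nonneg (by linarith [ht2.2] : (0 : ℝ) ≤ 1 - t) e1
      have := mul_pos ht2.1 (lt_of_lt_of_le e3 e2)
      linarith
    · intro r hr hk
      rw [lf_seg M (E r) (fun a => y a 0 0) X t]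
      have e1 := hP.weak r hr hk
      have e2 := hH.xw r hr hk
      have := mul_nonneg (by linarith [ht2.2] : (0 : ℝ) ≤ 1 - t) e1
      have := mul_nonneg ht2.1.le e2
      linarith

end Pool.Agent.Helper5.DCT
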