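import Pool.Agent.Helper54.DT.StmtsS

namespace Pool.Agent.Helper5.DCT

open Pool.Agent.Helper54.DT
open Finset Pool.Agent.Helper54.ETR Pool.Agent.Helper54.Poly

theorem eval_const (t : Term) (h : t.deg ∅ = 0) (x y : ℕ → ℝ) : t.eval x = t.eval y := by
  induction t with
  | zero => rfl
  | one => rfl
  | var i => simp [Term.deg] at h
  | add s t hs ht =>
    simp only [Term.deg] at h
    simp only [Term.eval, hs (by omega), ht (by omega)]
  | sub s t hs ht =>
    simp only [Term.deg] at h
    simp only [Term.eval, hs (by omega), ht (by omega)]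
  | mul s t hs ht =>
    simp only [Term.deg] at h
    simp only [Term.eval, hs (by omega), ht (by omega)]

theorem eval_seg (t : Term) (h : t.deg ∅ ≤ 1) (x y : ℕ → ℝ) (a : ℝ) :
    t.eval (fun i => (1 - a) * x i + a * y i) = (1 - a) * t.eval x + a * t.eval y := by
  induction t with
  | zero => simp [Term.eval]
  | one => simp [Term.eval]
  | var i => rfl
  | add s t hs ht =>
    simp only [Term.deg] at h
    simp only [Term.eval, hs (by omega), ht (by omega)]
    ring
  | sub s t hs ht =>
    simp only [Term.deg] at h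
    simp only [Term.eval, hs (by omega), ht (by omega)]
    ring
  | mul s t hs ht =>
    simp only [Term.deg] at h
    rcases Nat.eq_zero_or_pos (s.deg ∅) with h0 | h0
    · simp only [Term.eval, ht (by omega)]
      rw [eval_const s h0 (fun i => (1 - a) * x i + a * y i) x, eval_const s h0 y x]
      ring
    · have h1 : t.deg ∅ = 0 := by omega
      simp only [Term.eval, hs (by omega)]
      rw [eval_const t h1 (fun i => (1 - a) * x i + a * y i) x, eval_const t h1 y x]
      ring

theorem eval_cont (t : Term) (x y : ℕ → ℝ) :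
    Continuous fun a : ℝ => t.eval (fun i => (1 - a) * x i + a * y i) := by
  induction t with
  | zero => simpa [Term.eval] using continuous_const
  | one => simpa [Term.eval] using continuous_const
  | var i =>
    show Continuous fun a : ℝ => (1 - a) * x i + a * y i
    fun_prop
  | add s t hs ht => exact hs.add ht
  | sub s t hs ht => exact hs.sub ht
  | mul s t hs ht => exact hs.mul ht

theorem st_IVT : ST_IVT := by
  intro n kl lin f hok x1 x2 h1 h2 h3 h4
  have hcont : ContinuousOn (fun a : ℝ => f.1.eval (fun i => (1 - a) * x1 i + a * x2 i) -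
      f.2.eval (fun i => (1 - a) * x1 i + a * x2 i)) (Set.Icc 0 1) :=
    ((eval_cont f.1 x1 x2).sub (eval_cont f.2 x1 x2)).continuousOn
  have hivt := intermediate_value_Icc (zero_le_one' ℝ) hcont
  have hmem : (0 : ℝ) ∈ Set.Icc
      (f.1.eval (fun i => (1 - (0 : ℝ)) * x1 i + 0 * x2 i) -
        f.2.eval (fun i => (1 - (0 : ℝ)) * x1 i + 0 * x2 i))
      (f.1.eval (fun i => (1 - (1 : ℝ)) * x1 i + 1 * x2 i) -
        f.2.eval (fun i => (1 - (1 : ℝ)) * x1 i + 1 * x2 i)) := by
    simp only [sub_zero, one_mul, zero_mul, add_zero, sub_self, zero_add]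
    exact ⟨by linarith, by linarith⟩
  obtain ⟨a, ha, hz⟩ := hivt hmem
  refine ⟨fun i => (1 - a) * x1 i + a * x2 i, ?_, by simpa [sub_eq_zero] using hz⟩
  intro z hz
  have hz2 : z.2 ∈ lin := (List.of_mem_zip hz).2
  obtain ⟨d1, d2, -, -⟩ := hok.2.2 z.2 hz2
  rw [eval_seg _ d1, eval_seg _ d2]
  refine ⟨fun h0 => ?_, fun h0 => ?_⟩
  · rw [(h1 z hz).1 h0, (h2 z hz).1 h0]
  · have e1 := (h1 z hz).2 h0
    have e2 := (h2 z hz).2 h0
    rcases lt_or_eq_of_le ha.1 with h5 | h5
    · have := mul_lt_mul_of_pos_left e2 h5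
      have := mul_le_mul_of_nonneg_left e1.le (by linarith [ha.2] : (0 : ℝ) ≤ 1 - a)
      linarith
    · rw [← h5]
      linarith

end Pool.Agent.Helper5.DCT
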