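import Pool.Agent.Helper54.DT.StmtsH

namespace Pool.Agent.Helper5.DCT

open Pool.Agent.Helper54.DT
open Finset Pool.Agent.Helper54.ETR Pool.Agent.Helper54.Poly Pool.Agent.Helper54.DI

theorem lagr {ι : Type*} (s : Finset ι) (c m : ι → ℝ) :
    ∑ p ∈ s, ∑ q ∈ s, (c p * m q - c q * m p) ^ 2 =
      2 * ((∑ p ∈ s, c p ^ 2) * (∑ p ∈ s, m p ^ 2) - (∑ p ∈ s, c p * m p) ^ 2) := by
  have h : ∀ p q, (c p * m q - c q * m p) ^ 2 =
      c p ^ 2 * m q ^ 2 + m p ^ 2 * c q ^ 2 - 2 * ((c p * m p) * (c q * m q)) := by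
    intro p q
    ring
  simp_rw [h, Finset.sum_sub_distrib, Finset.sum_add_distrib, ← Finset.mul_sum, ← Finset.sum_mul]
  ring

theorem sval_eq (M : ℕ) (z : ℕ → ℝ) (f : SF) (hf : ∀ e ∈ f, e.2.1 < M ∧ e.2.2 < M) :
    sval z f = ∑ v ∈ range M, ∑ w ∈ range M, cR f v w * (z v * z w) := by
  induction f with
  | nil => simp [sval, cR, cnt]
  | cons e f ih =>
    have h1 := ih fun e' he' => hf e' (List.mem_cons_of_mem _ he')
    have h2 := hf e List.mem_cons_self
    have hc : ∀ v w, cR (e :: f) v w =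
        (if e.2.1 = v then (if e.2.2 = w then (if e.1 then (1 : ℝ) else -1) else 0) else 0) +
          cR f v w := by
      intro v w
      unfold cR cnt
      rcases e with ⟨b, i, j⟩
      by_cases hv : i = v <;> by_cases hw : j = w <;> cases b <;>
        simp [hv, hw] <;> ring
    have hs : sval z (e :: f) = (if e.1 then (1 : ℝ) else -1) * (z e.2.1 * z e.2.2) + sval z f := by
      simp [sval]
    rw [hs, h1]
    simp_rw [hc, add_mul, Finset.sum_add_distrib]
    congr 1
    rw [Finset.sum_eq_single_of_mem e.2.1 (Finset.mem_range.mpr h2.1)]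
    · rw [Finset.sum_eq_single_of_mem e.2.2 (Finset.mem_range.mpr h2.2)]
      · simp
      · intro w _ hw
        simp [Ne.symm hw]
    · intro v _ hv
      simp [Ne.symm hv]

theorem st_LAG : ST_LAG := by
  intro M f z hf
  have h1 := sval_eq M z f (hf f List.mem_cons_self)
  refine ⟨h1, ?_⟩
  have h2 := lagr (range M ×ˢ range M) (fun p => cR f p.1 p.2) (fun p => z p.1 * z p.2)
  simp only [Finset.sum_product] at h2
  rw [h2, ← h1]
  have h3 : ∑ v ∈ range M, ∑ w ∈ range M, (z v * z w) ^ 2 = (∑ v ∈ range M, z v ^ 2) ^ 2 := by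
    rw [sq (∑ v ∈ range M, z v ^ 2), Finset.sum_mul_sum]
    exact Finset.sum_congr rfl fun v _ => Finset.sum_congr rfl fun w _ => by ring
  rw [h3]

end Pool.Agent.Helper5.DCT
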