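import Pool.Agent.Helper54.DT.StmtsS

namespace Pool.Agent.Helper5.DCT

open Pool.Agent.Helper54.DT
open Finset Pool.Agent.Helper54.ETR Pool.Agent.Helper54.Poly

/-- extension by zero -/
def ext0 (M : ℕ) (x : Fin M → ℝ) : ℕ → ℝ := fun a => if h : a < M then x ⟨a, h⟩ else 0

theorem ext0_cont (M : ℕ) (a : ℕ) : Continuous fun x : Fin M → ℝ => ext0 M x a := by
  unfold ext0
  split_ifs with h
  · exact continuous_apply _
  · exact continuous_const

theorem lf_congr {M : ℕ} {e X Y : ℕ → ℝ} (h : ∀ a < M, X a = Y a) : lf M e X = lf M e Y := by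
  refine Finset.sum_congr rfl fun m hm => ?_
  rw [h m (Finset.mem_range.mp hm)]

theorem cub_congr {M : ℕ} {S : ℕ → ℕ → ℕ → ℝ} {X Y : ℕ → ℝ} (h : ∀ a < M, X a = Y a) :
    cub M S X = cub M S Y := by
  refine Finset.sum_congr rfl fun a ha => Finset.sum_congr rfl fun b hb =>
    Finset.sum_congr rfl fun c hc => ?_
  rw [h a (Finset.mem_range.mp ha), h b (Finset.mem_range.mp hb), h c (Finset.mem_range.mp hc)]

theorem inC_congr {M R : ℕ} {E : ℕ → ℕ → ℝ} {kd : ℕ → ℕ} {X Y : ℕ → ℝ} (hM : 1 ≤ M)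
    (h : ∀ a < M, X a = Y a) (hX : InC M R E kd X) : InC M R E kd Y :=
  ⟨by rw [← h 0 hM]; exact hX.one, fun r hr h0 => by rw [← lf_congr h]; exact hX.eqz r hr h0,
    fun r hr h0 => by rw [← lf_congr h]; exact hX.weak r hr h0⟩

theorem lf_cont (M : ℕ) (e : ℕ → ℝ) : Continuous fun x : Fin M → ℝ => lf M e (ext0 M x) := by
  unfold lf
  exact continuous_finsetSum _ fun m _ => continuous_const.mul (ext0_cont M m)

theorem cub_cont (M : ℕ) (S : ℕ → ℕ → ℕ → ℝ) :
    Continuous fun x : Fin M → ℝ => cub M S (ext0 M x) := by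
  unfold cub
  exact continuous_finsetSum _ fun a _ => continuous_finsetSum _ fun b _ =>
    continuous_finsetSum _ fun c _ => continuous_const.mul
      (((ext0_cont M a).mul (ext0_cont M b)).mul (ext0_cont M c))

theorem st_MIN : ST_MIN := by
  intro M R E kd S hM hB hne
  obtain ⟨B, hB⟩ := hB
  obtain ⟨X0, hX0⟩ := hne
  have key : ∀ X : ℕ → ℝ, ∀ a < M, X a = ext0 M (fun i : Fin M => X i) a := by
    intro X a ha
    simp [ext0, ha]
  let K : Set (Fin M → ℝ) := {x | InC M R E kd (ext0 M x)}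
  have hclosed : IsClosed K := by
    have h1 : IsClosed {x : Fin M → ℝ | ext0 M x 0 = 1} :=
      isClosed_eq (ext0_cont M 0) continuous_const
    have h2 : IsClosed {x : Fin M → ℝ | ∀ r < R, kd r = 0 → lf M (E r) (ext0 M x) = 0} := by
      simp only [Set.ofPred_forall]
      exact isClosed_iInter fun r => isClosed_iInter fun _ => isClosed_iInter fun _ =>
        isClosed_eq (lf_cont M _) continuous_const
    have h3 : IsClosed {x : Fin M → ℝ | ∀ r < R, kd r ≠ 0 → 0 ≤ lf M (E r) (ext0 M x)} := by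
      simp only [Set.ofPred_forall]
      exact isClosed_iInter fun r => isClosed_iInter fun _ => isClosed_iInter fun _ =>
        isClosed_le continuous_const (lf_cont M _)
    have : K = {x : Fin M → ℝ | ext0 M x 0 = 1} ∩
        ({x : Fin M → ℝ | ∀ r < R, kd r = 0 → lf M (E r) (ext0 M x) = 0} ∩
        {x : Fin M → ℝ | ∀ r < R, kd r ≠ 0 → 0 ≤ lf M (E r) (ext0 M x)}) := by
      ext x
      exact ⟨fun h => ⟨h.one, h.eqz, h.weak⟩, fun h => ⟨h.1, h.2.1, h.2.2⟩⟩
    rw [this]
    exact h1.inter (h2.inter h3)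
  have hcomp : IsCompact K := by
    refine (isCompact_univ_pi fun _ : Fin M => isCompact_Icc (a := -B) (b := B)).of_isClosed_subset
      hclosed fun x hx => ?_
    intro i _
    have := hB _ hx i i.2
    simp only [ext0, Fin.is_lt, dif_pos, Fin.eta] at this
    exact abs_le.mp this
  have hKne : K.Nonempty := ⟨fun i => X0 i, inC_congr hM (key X0) hX0⟩
  obtain ⟨x, hx, hmin⟩ := hcomp.exists_isMinOn hKne (cub_cont M S).continuousOn
  refine ⟨ext0 M x, hx, fun Z hZ => ?_⟩
  have h1 := hmin (show (fun i : Fin M => Z i) ∈ K from inC_congr hM (key Z) hZ)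
  rw [cub_congr (key Z)]
  exact h1

end Pool.Agent.Helper5.DCT
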