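import Pool.Agent.Helper54.DT.StmtsS

namespace Pool.Agent.Helper5.DCT

open Pool.Agent.Helper54.DT
open Finset Pool.Agent.Helper54.ETR Pool.Agent.Helper54.Poly

/-- a positive semidefinite form is a sum of squares -/
theorem sos (s : Finset ℕ) (C : ℕ → ℕ → ℝ) (hs : ∀ i j, C i j = C j i)
    (hp : ∀ w : ℕ → ℝ, 0 ≤ ∑ i ∈ s, ∑ j ∈ s, w i * w j * C i j) :
    ∃ (m : ℕ) (b : Fin m → ℕ → ℝ), ∀ i ∈ s, ∀ j ∈ s, C i j = ∑ k, b k i * b k j := by
  let N : Matrix s s ℝ := fun i j => C i j
  have hN : N.PosSemidef := by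
    refine .of_dotProduct_mulVec_nonneg ?_ fun x => ?_
    · ext i j
      show star (C (j : ℕ) (i : ℕ)) = C (i : ℕ) (j : ℕ)
      rw [star_trivial]
      exact hs _ _
    · have h := hp (fun i => if h : i ∈ s then x ⟨i, h⟩ else 0)
      have e : star x ⬝ᵥ (N.mulVec x) = ∑ i ∈ s, ∑ j ∈ s,
          (if h : i ∈ s then x ⟨i, h⟩ else 0) * (if h : j ∈ s then x ⟨j, h⟩ else 0) * C i j := by
        rw [← Finset.sum_coe_sort s]
        simp only [dotProduct, Matrix.mulVec, Pi.star_apply, star_trivial]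
        refine Finset.sum_congr rfl fun i _ => ?_
        rw [Finset.mul_sum, ← Finset.sum_coe_sort s]
        refine Finset.sum_congr rfl fun j _ => ?_
        simp only [Finset.coe_mem, dif_pos, Subtype.coe_eta, N]
        ring
      rw [e]
      exact h
  obtain ⟨m, v, hv⟩ := Matrix.posSemidef_iff_eq_sum_vecMulVec.mp hN
  refine ⟨m, fun k i => if h : i ∈ s then v k ⟨i, h⟩ else 0, fun i hi j hj => ?_⟩
  have := congrFun (congrFun hv ⟨i, hi⟩) ⟨j, hj⟩
  simp only [Matrix.sum_apply, Matrix.vecMulVec_apply, star_trivial] at this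
  simp only [hi, hj, dif_pos]
  exact this

theorem st_PSDK : ST_PSDK := by
  intro M R A C e tg hs hp ht hA
  obtain ⟨m, b, hb⟩ := sos (Ico 1 M) C hs hp
  have hker : ∀ k, ∀ r < R, tg r = true → ∑ i ∈ Ico 1 M, e r i * b k i = 0 := by
    intro k r hr htr
    have h1 : ∑ k, (∑ i ∈ Ico 1 M, e r i * b k i) ^ 2 = 0 := by
      calc ∑ k, (∑ i ∈ Ico 1 M, e r i * b k i) ^ 2
          = ∑ k, ∑ j ∈ Ico 1 M, ∑ i ∈ Ico 1 M, e r j * (e r i * (b k i * b k j)) := by
            refine Finset.sum_congr rfl fun k _ => ?_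
            rw [sq, Finset.sum_mul_sum, Finset.sum_comm]
            exact Finset.sum_congr rfl fun i _ => Finset.sum_congr rfl fun j _ => by ring
        _ = ∑ j ∈ Ico 1 M, ∑ i ∈ Ico 1 M, ∑ k, e r j * (e r i * (b k i * b k j)) := by
            rw [Finset.sum_comm]
            refine Finset.sum_congr rfl fun j _ => ?_
            rw [Finset.sum_comm]
        _ = ∑ j ∈ Ico 1 M, e r j * ∑ i ∈ Ico 1 M, e r i * C i j := by
            refine Finset.sum_congr rfl fun j hj => ?_
            rw [Finset.mul_sum]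
            refine Finset.sum_congr rfl fun i hi => ?_
            rw [hb i hi j hj, ← Finset.mul_sum, ← Finset.mul_sum]
        _ = 0 := by
            refine Finset.sum_eq_zero fun j hj => ?_
            rw [ht r hr htr j hj, mul_zero]
    have h2 := (Finset.sum_eq_zero_iff_of_nonneg fun k _ => sq_nonneg _).mp h1 k
      (Finset.mem_univ k)
    exact pow_eq_zero_iff (two_ne_zero) |>.mp h2
  have h3 : ∑ i ∈ Ico 1 M, ∑ j ∈ Ico 1 M, A i j * C i j =
      ∑ k, ∑ i ∈ Ico 1 M, ∑ j ∈ Ico 1 M, b k i * b k j * A i j := by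
    symm
    rw [Finset.sum_comm]
    refine Finset.sum_congr rfl fun i hi => ?_
    rw [Finset.sum_comm]
    refine Finset.sum_congr rfl fun j hj => ?_
    rw [hb i hi j hj, Finset.mul_sum]
    exact Finset.sum_congr rfl fun k _ => by ring
  rw [h3]
  exact Finset.sum_nonneg fun k _ => hA (b k) (hker k)

end Pool.Agent.Helper5.DCT
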